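import Pool.Agent.Helper36_RF.GeoSt
import Pool.Agent.Helper36_RF.Cl

/-!
# MVS: the circle-equivariant minimal volume of the four-sphere (MP_33f2b9_gt)

Definitions.  Part 1: official definitions used in the final statement (metrics on `S^4` are the
`Form 4` of `Pool/Agent/Helper36_RF/Cl.lean`).  Part 2: internal definitions (cylinder metrics on
`ℝ^5 \ {0}`, `IsCyl` of `Pool/Agent/Helper36_RF/Geo.lean`).
-/

noncomputable section

open scoped ContDiff Topology RealInnerProductSpace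
open Set

namespace Pool.Agent.MinVolSphere

open Pool.Agent.SecondKind

/-- `h(a,a) h(b,b) - h(a,b)^2`, the squared area of the parallelogram spanned by `a, b` -/
def area2 {n : ℕ} (h : Coord n) (y a b : Fin n → ℝ) : ℝ :=
  (∑ p, ∑ q, a p * a q * h y p q) * (∑ p, ∑ q, b p * b q * h y p q)
    - (∑ p, ∑ q, a p * b q * h y p q) ^ 2

/-- all sectional curvatures are at most `1`: `R(a,b,b,a) ≤ |a ∧ b|^2` in every smooth local
parametrization -/
def SecLeOne {n : ℕ} (g : Form n) : Prop :=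
  ∀ U ψ, IsParam U ψ → ∀ y ∈ U, ∀ a b : Fin n → ℝ,
    riemV (comp g ψ) y a b b a ≤ area2 (comp g ψ) y a b

/-- all sectional curvatures lie in `[-1,1]` -/
def AbsSecLeOne {n : ℕ} (g : Form n) : Prop :=
  ∀ U ψ, IsParam U ψ → ∀ y ∈ U, ∀ a b : Fin n → ℝ,
    |riemV (comp g ψ) y a b b a| ≤ area2 (comp g ψ) y a b

/-- the tangential part `e_i - x_i x` of the basis vector `e_i` at a point `x` of the sphere -/
def tang (x : Fin 5 → ℝ) (i : Fin 5) : Fin 5 → ℝ := fun j => (if i = j then 1 else 0) - x i * x j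

/-- the density of the Riemannian volume of `g` with respect to the standard surface measure of
`S^4`: the square root of the determinant of the bilinear form `g(v^T,w^T) + ⟨x,v⟩⟨x,w⟩` on `ℝ^5`
(equivalently, of `g` on `T_x S^4` in a Euclidean orthonormal basis) -/
def density (g : Form 4) (x : Fin 5 → ℝ) : ℝ :=
  Real.sqrt (Matrix.of fun i j : Fin 5 => g x (tang x i) (tang x j) + x i * x j).det

/-- the Riemannian volume of `S^4` with the metric `g` -/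
def vol (g : Form 4) : ℝ :=
  ∫ x : Metric.sphere (0 : EuclideanSpace ℝ (Fin 5)) 1,
    density g (fun i => (x : EuclideanSpace ℝ (Fin 5)) i)
      ∂((MeasureTheory.volume : MeasureTheory.Measure (EuclideanSpace ℝ (Fin 5))).toSphere)

/-- the linear circle action with weights `a, b`: rotation by the angle `a t` in the
`(x_0,x_1)`-plane and by the angle `b t` in the `(x_2,x_3)`-plane; `x_4` is fixed -/
def circ (a b t : ℝ) (x : Fin 5 → ℝ) : Fin 5 → ℝ :=
  ![Real.cos (a * t) * x 0 - Real.sin (a * t) * x 1,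
    Real.sin (a * t) * x 0 + Real.cos (a * t) * x 1,
    Real.cos (b * t) * x 2 - Real.sin (b * t) * x 3,
    Real.sin (b * t) * x 2 + Real.cos (b * t) * x 3,
    x 4]

/-- `g` is invariant under the action with weights `a, b` -/
def Invariant (a b : ℝ) (g : Form 4) : Prop :=
  ∀ t x v w, Tangent x v → Tangent x w →
    g (circ a b t x) (circ a b t v) (circ a b t w) = g x v w

end Pool.Agent.MinVolSphere

namespace Pool.Agent.MVS

open Pool.Agent.RF

abbrev E5 : Type := E (Fin 5)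
abbrev E3 : Type := E (Fin 3)

/-- orthogonal projection of `ℝ^5` onto the span of the coordinate vectors `e_i`, `i ∈ κ` -/
def pP (κ : Finset (Fin 5)) : E5 →L[ℝ] E5 :=
  ∑ i ∈ κ, (EuclideanSpace.proj i : E5 →L[ℝ] ℝ).smulRight (eb i)

/-- orthogonal projection onto the span of the remaining coordinate vectors -/
def pN (κ : Finset (Fin 5)) : E5 →L[ℝ] E5 := pP κᶜ

/-- the rotation by the angle `a t` in the `(0,1)`-plane and by `b t` in the `(2,3)`-plane -/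
def Rt (a b t : ℝ) : E5 →L[ℝ] E5 :=
  Real.cos (a * t) • ((EuclideanSpace.proj 0 : E5 →L[ℝ] ℝ).smulRight (eb 0)
      + (EuclideanSpace.proj 1 : E5 →L[ℝ] ℝ).smulRight (eb 1))
  + Real.sin (a * t) • ((EuclideanSpace.proj 0 : E5 →L[ℝ] ℝ).smulRight (eb 1)
      - (EuclideanSpace.proj 1 : E5 →L[ℝ] ℝ).smulRight (eb 0))
  + Real.cos (b * t) • ((EuclideanSpace.proj 2 : E5 →L[ℝ] ℝ).smulRight (eb 2)
      + (EuclideanSpace.proj 3 : E5 →L[ℝ] ℝ).smulRight (eb 3))
  + Real.sin (b * t) • ((EuclideanSpace.proj 2 : E5 →L[ℝ] ℝ).smulRight (eb 3)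
      - (EuclideanSpace.proj 3 : E5 →L[ℝ] ℝ).smulRight (eb 2))
  + (EuclideanSpace.proj 4 : E5 →L[ℝ] ℝ).smulRight (eb 4)

/-- the generator `x ↦ (-a x_1, a x_0, -b x_3, b x_2, 0)` of `Rt a b` -/
def Ag (a b : ℝ) : E5 →L[ℝ] E5 :=
  a • ((EuclideanSpace.proj 0 : E5 →L[ℝ] ℝ).smulRight (eb 1)
      - (EuclideanSpace.proj 1 : E5 →L[ℝ] ℝ).smulRight (eb 0))
  + b • ((EuclideanSpace.proj 2 : E5 →L[ℝ] ℝ).smulRight (eb 3)
      - (EuclideanSpace.proj 3 : E5 →L[ℝ] ℝ).smulRight (eb 2))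

/-- The three cases: both weights nonzero (two isolated fixed points `±e_4` on `S^4`), or exactly
one weight nonzero (the fixed point set is a two-sphere).  `κ` is the set of coordinates which are
rotated; `span {e_i : i ∉ κ}` is the kernel of `Ag a b`. -/
def Cs (κ : Finset (Fin 5)) (a b : ℝ) : Prop :=
  (κ = {0, 1, 2, 3} ∧ a ≠ 0 ∧ b ≠ 0) ∨ (κ = {0, 1} ∧ a ≠ 0 ∧ b = 0) ∨
    (κ = {2, 3} ∧ a = 0 ∧ b ≠ 0)

/-- sectional curvature at most one -/
def SecLe {ι : Type} [Fintype ι] [DecidableEq ι] (G : E ι → Bil (E ι)) : Prop :=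
  ∀ x ∈ Om ι, ∀ v w, G x (riem G x v w w) v ≤ G x v v * G x w w - G x v w ^ 2

/-- The standing hypotheses: an invariant metric on `S^4` with sectional curvature at most one,
as a cylinder metric on `ℝ^5 \ {0}`. -/
structure Setup (G : E5 → Bil E5) (κ : Finset (Fin 5)) (a b : ℝ) : Prop where
  cyl : IsCyl G
  sec : SecLe G
  inv : ∀ t : ℝ, ∀ x ∈ Om (Fin 5), ∀ v w, G (Rt a b t x) (Rt a b t v) (Rt a b t w) = G x v w
  cs : Cs κ a b

/-- `ex` is the geodesic exponential map of the cylinder metric `G` -/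
structure IsExp (G : E5 → Bil E5) (ex : E5 × E5 → E5) : Prop where
  smooth : ContDiffOn ℝ ∞ ex (Om (Fin 5) ×ˢ univ)
  zero : ∀ x ∈ Om (Fin 5), ex (x, 0) = x
  mem : ∀ x ∈ Om (Fin 5), ∀ v, ex (x, v) ∈ Om (Fin 5)
  init : ∀ x ∈ Om (Fin 5), ∀ v, deriv (fun t : ℝ => ex (x, t • v)) 0 = v
  geo : ∀ x ∈ Om (Fin 5), ∀ v, ∀ t : ℝ,
    deriv (deriv (fun s : ℝ => ex (x, s • v))) t =
      - chris G (ex (x, t • v)) (deriv (fun s : ℝ => ex (x, s • v)) t)
          (deriv (fun s : ℝ => ex (x, s • v)) t)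

/-- orthonormal frames `Q σ : P → (P, G σ)` of the normal bundle of the fixed set; `N = ker`,
`P = N^⊥` -/
structure IsFrm (G : E5 → Bil E5) (κ : Finset (Fin 5)) (Q : E5 → (E5 →L[ℝ] E5)) : Prop where
  smooth : ContDiffOn ℝ ∞ Q {z | pN κ z ≠ 0}
  maps : ∀ σ, pP κ σ = 0 → σ ≠ 0 → ∀ y, pN κ y = 0 → pN κ (Q σ y) = 0
  ortho : ∀ σ, pP κ σ = 0 → σ ≠ 0 → ∀ y y', pN κ y = 0 → pN κ y' = 0 →
    G σ (Q σ y) (Q σ y') = ⟪y, y'⟫
  hom : ∀ c : ℝ, 0 < c → ∀ σ, pP κ σ = 0 → σ ≠ 0 → ∀ y, pN κ y = 0 →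
    Q (c • σ) y = c • Q σ y

/-- The normal exponential map `N(σ + y) = exp_σ (Q σ y)` (`σ ∈ N \ {0}`, `y ∈ P`) of the fixed
set, with its basic properties. -/
structure NData (G : E5 → Bil E5) (κ : Finset (Fin 5)) (F : E5 → E5) : Prop where
  smooth : ContDiffOn ℝ ∞ F {z | pN κ z ≠ 0}
  base : ∀ σ, pP κ σ = 0 → σ ≠ 0 → F σ = σ
  norm : ∀ z, pN κ z ≠ 0 → ‖F z‖ = ‖pN κ z‖
  hom : ∀ c : ℝ, 0 < c → ∀ z, pN κ z ≠ 0 → F (c • pN κ z + pP κ z) = c • F z
  dN : ∀ σ, pP κ σ = 0 → σ ≠ 0 → ∀ w, pP κ w = 0 → fderiv ℝ F σ w = w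
  dP : ∀ σ, pP κ σ = 0 → σ ≠ 0 → ∀ w, pN κ w = 0 → pN κ (fderiv ℝ F σ w) = 0
  iso : ∀ σ, pP κ σ = 0 → σ ≠ 0 → ∀ w w', pN κ w = 0 → pN κ w' = 0 →
    G σ (fderiv ℝ F σ w) (fderiv ℝ F σ w') = ⟪w, w'⟫
  geo : ∀ σ, pP κ σ = 0 → σ ≠ 0 → ∀ y, pN κ y = 0 → ∀ t : ℝ,
    fderiv ℝ (fun z => fderiv ℝ F z y) (σ + t • y) y =
      - chris G (F (σ + t • y)) (fderiv ℝ F (σ + t • y) y) (fderiv ℝ F (σ + t • y) y)

/-- the unit speed normal geodesic -/
def gam (F : E5 → E5) (σ y : E5) (t : ℝ) : E5 := F (σ + t • y)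

/-- its velocity -/
def Tv (F : E5 → E5) (σ y : E5) (t : ℝ) : E5 := fderiv ℝ F (σ + t • y) y

/-- the Jacobi field `∂_s F(σ + s w_N + t (y + s w_P))` -/
def Vf (κ : Finset (Fin 5)) (F : E5 → E5) (σ y w : E5) (t : ℝ) : E5 :=
  fderiv ℝ F (σ + t • y) (pN κ w + t • pP κ w)

/-- its covariant derivative along the geodesic -/
def DVf (G : E5 → Bil E5) (κ : Finset (Fin 5)) (F : E5 → E5) (σ y w : E5) (t : ℝ) : E5 :=
  deriv (Vf κ F σ y w) t + chris G (gam F σ y t) (Tv F σ y t) (Vf κ F σ y w t)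

/-- Gram matrix of a bilinear form in the standard basis -/
def gm {ι : Type} [Fintype ι] [DecidableEq ι] (B : Bil (E ι)) : Matrix ι ι ℝ :=
  Matrix.of fun i j => B (eb i) (eb j)

/-- `√ det` of a bilinear form in the standard basis -/
def sd {ι : Type} [Fintype ι] [DecidableEq ι] (B : Bil (E ι)) : ℝ := Real.sqrt (gm B).det

/-- the volume density of the pullback metric `F^* G` at `z` -/
def Dz (G : E5 → Bil E5) (F : E5 → E5) (z : E5) : ℝ := sd (pullb G F z)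

/-- the slab `1 < |x| < e`, whose volume for a cylinder metric is the volume of the slice -/
def slab (ι : Type) [Fintype ι] : Set (E ι) := {x | 1 < ‖x‖ ∧ ‖x‖ < Real.exp 1}

/-- the comparison function `(sin r / r)^(k-1) (cos r)^(4-k)`, `k = |κ|` -/
def jac (κ : Finset (Fin 5)) (r : ℝ) : ℝ :=
  (Real.sin r / r) ^ (κ.card - 1) * Real.cos r ^ (4 - κ.card)

/-- inclusion of the fixed three-space -/
def inc (κ : Finset (Fin 5)) : E3 →L[ℝ] E5 :=
  if κ = {0, 1} then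
    (EuclideanSpace.proj 0 : E3 →L[ℝ] ℝ).smulRight (eb 2)
      + (EuclideanSpace.proj 1 : E3 →L[ℝ] ℝ).smulRight (eb 3)
      + (EuclideanSpace.proj 2 : E3 →L[ℝ] ℝ).smulRight (eb 4)
  else
    (EuclideanSpace.proj 0 : E3 →L[ℝ] ℝ).smulRight (eb 0)
      + (EuclideanSpace.proj 1 : E3 →L[ℝ] ℝ).smulRight (eb 1)
      + (EuclideanSpace.proj 2 : E3 →L[ℝ] ℝ).smulRight (eb 4)

end Pool.Agent.MVS
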