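import Pool.Agent.MVS.Defs

/-!
# MVS: statements (MP_33f2b9_gt, the circle-equivariant minimal volume of `S^4`)

THEOREM.  Every smooth metric on `S^4` with sectional curvature `≤ 1` which is invariant under a
linear circle action (weights `(a,b) ≠ (0,0)`) has volume `≥ 8π²/3`, the volume of the round metric.

PROOF IN SHORT.  Work with the cylinder metric `G` (`= dρ² + g`, `ρ = log |x|`) on `ℝ^5 \ {0}`.
`N = span {e_i : i ∉ κ}` is the fixed space of the rotations, `P = N^⊥`.  Let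
`F (σ + y) = exp_σ (Q σ y)` (`σ ∈ N \ {0}`, `y ∈ P`) be the normal exponential map of `N`, with
orthonormal frames `Q σ` of `(P, G σ)`.  For a geodesic `γ(t) = F(σ + t y)` (`|y| = 1`) the vector
field `Ag γ(t)` is a Jacobi field vanishing at `t = 0`, so by comparison with curvature `1` it does
not vanish for `0 < t < π`: no normal geodesic returns to `N` before time `π` (NOZ).  Hence `F` is
injective on `|y| < π/2` (COI: at a coincidence `F z₁ = F z₂` minimising `|y₁| + |y₂|` the two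
geodesics fit together to a smooth geodesic of length `< π` from `N` to `N`).  By the Jacobi field
comparison (BND, LIN, DET) the volume density of `F^* G` at `σ + y` is at least
`(sin r / r)^(k-1) (cos r)^(4-k)` times the density at `σ`, `r = |y|`, `k = dim P ∈ {4, 2}`.
Integrating: for `k = 4` one gets `2 ∫_1^e dλ/λ * 2π² ∫_0^{π/2} sin³ = 8π²/3`; for `k = 2` one gets
`Area(fixed sphere) * 2π ∫_0^{π/2} sin cos² = (2π/3) Area`, and `Area ≥ 4π` by Gauss-Bonnet on the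
fixed sphere, which is totally geodesic and so has curvature `≤ 1`.

Every `...Statement : Prop` below is a row of the table `mvs`.  The facts on Christoffel symbols,
curvature, naturality, cylinders are already PROVED in the library of MP_a23110_gt:
`Pool.Agent.RF.chrStatement : ChrStatement` (Helper36_RF/Chr.lean, with many named lemmas
`IsMetricOn.chris_symm`, `chris_spec`, `chris_eq_iff`, `contDiffOn_chris`, ...),
`Pool.Agent.RF.sym` (Helper9_RF/Sym.lean, `SymStatement`: all symmetries of `riem`; `compat` = metric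
compatibility), `Pool.Agent.RF.nat` (Helper5_RF/Nat.lean), `diffeo` (Helper5_RF/Diffeo.lean), `cyl`
(Helper5_RF/Cyl.lean: `chris H x v x = -v`, `riem H x x v w = 0`, `riem H x u v x = 0`, ...),
`slice` (Helper5_RF/Slice.lean), bilinearity of `chris`/`riem`: Helper5_RF/Common.lean,
`exists_flow` (Helper13_RF/FlowV.lean: smooth flows of globally Lipschitz time dependent fields),
the classical formulas: Helper36_RF/ClBr.lean, ClMan.lean.  Use them freely (import the file, check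
the exact name and namespace `Pool.Agent.RF`).
-/

noncomputable section

open scoped ContDiff Topology RealInnerProductSpace
open Set MeasureTheory

namespace Pool.Agent.MVS

open Pool.Agent.RF

/-! ## Part A: linear algebra of the rotations -/

/-- ROT.  Elementary facts on `Rt`, `Ag`, `pP`, `pN` (case distinction on `Cs`, coordinates).  With
`c = cos (a t)` etc. everything is a finite computation in coordinates; `Rt a b t` is an isometry,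
`d/dt Rt a b t x = Ag (Rt a b t x)`. -/
def RotStatement : Prop :=
  (∀ κ x, pN κ x + pP κ x = x) ∧
  (∀ κ x y, ⟪pN κ x, pP κ y⟫ = 0) ∧
  (∀ κ x y, ⟪pN κ x, y⟫ = ⟪x, pN κ y⟫) ∧ (∀ κ x y, ⟪pP κ x, y⟫ = ⟪x, pP κ y⟫) ∧
  (∀ κ x, pP κ (pP κ x) = pP κ x) ∧ (∀ κ x, pN κ (pN κ x) = pN κ x) ∧
  (∀ κ x, pP κ (pN κ x) = 0) ∧ (∀ κ x, pN κ (pP κ x) = 0) ∧
  (∀ a b x, Rt a b 0 x = x) ∧
  (∀ a b t x y, ⟪Rt a b t x, Rt a b t y⟫ = ⟪x, y⟫) ∧
  (∀ a b t x, Rt a b (-t) (Rt a b t x) = x) ∧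
  (∀ a b, ContDiff ℝ ∞ (fun q : ℝ × E5 => Rt a b q.1 q.2)) ∧
  (∀ a b t x, HasDerivAt (fun s : ℝ => Rt a b s x) (Ag a b (Rt a b t x)) t) ∧
  (∀ κ a b, Cs κ a b → (∀ x, Ag a b x = 0 ↔ pP κ x = 0) ∧ (∀ x, pP κ (Ag a b x) = Ag a b x) ∧
    (∀ t x, pP κ x = 0 → Rt a b t x = x) ∧ (∀ x, (∀ t, Rt a b t x = x) → pP κ x = 0))

/-- EQV.  (1) `chris` is equivariant under the isometries `Rt`: the vector
`Rt t (chris G x v w)` satisfies the defining equation (`IsMetricOn.chris_eq_iff` or `chris_spec`) of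
`chris G (Rt t x) (Rt t v) (Rt t w)`, obtained by differentiating `inv` (the derivative of
`G ∘ Rt t` at `x` in direction `u` is `fderiv G (Rt t x) (Rt t u)`).
(2) For `σ ∈ N`, `σ ≠ 0`, `v ∈ N`, `w ∈ P`: `G σ v w = 0`.  Indeed `Rt t` fixes `σ` and `v`, so
`G σ v (Rt t w) = G σ v w` for all `t`; differentiate at `t = 0`: `G σ v (Ag w) = 0`, and `Ag` maps
`P` onto `P` (injective on the finite dimensional space `P`, maps into `P`).
(3) For `σ, v, w ∈ N`: `chris G σ v w ∈ N`, because by (1) it is fixed by all `Rt t`. -/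
def EqvStatement : Prop :=
  ∀ (G : E5 → Bil E5) (κ : Finset (Fin 5)) (a b : ℝ), Setup G κ a b →
    (∀ t : ℝ, ∀ x ∈ Om (Fin 5), ∀ v w,
      chris G (Rt a b t x) (Rt a b t v) (Rt a b t w) = Rt a b t (chris G x v w)) ∧
    (∀ σ, pP κ σ = 0 → σ ≠ 0 → ∀ v w, pP κ v = 0 → pN κ w = 0 → G σ v w = 0) ∧
    (∀ σ, pP κ σ = 0 → σ ≠ 0 → ∀ v w, pP κ v = 0 → pP κ w = 0 → pP κ (chris G σ v w) = 0)

/-! ## Part B: curves, geodesics -/

/-- MCO.  Metric compatibility along curves: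
`d/dt G(c)(V,W) = G(c)(DV,W) + G(c)(V,DW)`, `DV = V' + chris(c',V)`.  Chain rule and
`fderiv G x z v w = G x (chris G x z v) w + G x v (chris G x z w)` (`compat` in Helper9_RF/Sym.lean,
or add two instances of `chris_spec`). -/
def McoStatement : Prop :=
  ∀ (ι : Type) [Fintype ι] [DecidableEq ι] (G : E ι → Bil (E ι)) (U : Set (E ι)), IsMetricOn G U →
    ∀ (c V W : ℝ → E ι) (c' V' W' : E ι) (t : ℝ), c t ∈ U → HasDerivAt c c' t →
      HasDerivAt V V' t → HasDerivAt W W' t →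
      HasDerivAt (fun s => G (c s) (V s) (W s))
        (G (c t) (V' + chris G (c t) c' (V t)) (W t)
          + G (c t) (V t) (W' + chris G (c t) c' (W t))) t

/-- JEQ.  Jacobi equation.  `c(s,t)` is a smooth map on an open set `O` of the plane with values in
`U`, with geodesics `t ↦ c(s,t)`; `T = ∂_t c`, `J = ∂_s c`, `D = ∂_t J + chris(T,J)` (`= D_t J = D_s T`).
Then `∂_t D + chris(T,D) = R(T,J)T`.  Proof: with `Dt X = ∂_t X + chris(T,X)`,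
`Ds X = ∂_s X + chris(J,X)` one has `Dt Ds X - Ds Dt X = R(T,J)X` for every smooth `X(s,t)` (expand:
the second derivatives of `c` and the mixed derivatives of `X` cancel by symmetry, the derivative of
`q ↦ chris G (c q) (u) (v)` is `chr_fderiv3`/`chr_fderiv_comp` of Helper5_RF/Common.lean; the
definition of `riem` gives exactly the remaining terms), and `Dt T = 0`, `Ds T = D`. -/
def JeqStatement : Prop :=
  ∀ (ι : Type) [Fintype ι] [DecidableEq ι] (G : E ι → Bil (E ι)) (U : Set (E ι)), IsMetricOn G U →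
    ∀ (O : Set (ℝ × ℝ)) (c : ℝ × ℝ → E ι), IsOpen O → ContDiffOn ℝ ∞ c O → MapsTo c O U →
      (∀ q ∈ O, fderiv ℝ (fun r => fderiv ℝ c r (0, 1)) q (0, 1) =
        - chris G (c q) (fderiv ℝ c q (0, 1)) (fderiv ℝ c q (0, 1))) →
      ∀ D : ℝ × ℝ → E ι, (∀ q ∈ O, D q = fderiv ℝ (fun r => fderiv ℝ c r (1, 0)) q (0, 1)
          + chris G (c q) (fderiv ℝ c q (0, 1)) (fderiv ℝ c q (1, 0))) →
      ∀ q ∈ O, DifferentiableAt ℝ D q ∧
        fderiv ℝ D q (0, 1) + chris G (c q) (fderiv ℝ c q (0, 1)) (D q) =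
        riem G (c q) (fderiv ℝ c q (0, 1)) (fderiv ℝ c q (1, 0)) (fderiv ℝ c q (0, 1))

/-- UNQ.  Uniqueness of geodesics in `Om`.  The second order equation is the flow of the `C^1` field
`V(x,v) = (v, - chris G x v v)` on the open set `Om × E`; use a local uniqueness theorem for locally
Lipschitz fields (e.g. the set of times where the two solutions agree is open and closed in
`[0,L]`), or `ODE_solution_unique_of_mem_Icc` type theorems with a Lipschitz constant on a compact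
neighbourhood of the two trajectories. -/
def UnqStatement : Prop :=
  ∀ (G : E5 → Bil E5), IsCyl G → ∀ (L : ℝ), 0 ≤ L → ∀ c₁ c₂ d₁ d₂ : ℝ → E5,
    (∀ t ∈ Icc 0 L, c₁ t ∈ Om (Fin 5) ∧ c₂ t ∈ Om (Fin 5)) →
    (∀ t ∈ Icc 0 L, HasDerivWithinAt c₁ (d₁ t) (Icc 0 L) t ∧
      HasDerivWithinAt d₁ (- chris G (c₁ t) (d₁ t) (d₁ t)) (Icc 0 L) t) →
    (∀ t ∈ Icc 0 L, HasDerivWithinAt c₂ (d₂ t) (Icc 0 L) t ∧
      HasDerivWithinAt d₂ (- chris G (c₂ t) (d₂ t) (d₂ t)) (Icc 0 L) t) →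
    c₁ 0 = c₂ 0 → d₁ 0 = d₂ 0 → ∀ t ∈ Icc 0 L, c₁ t = c₂ t ∧ d₁ t = d₂ t

/-- SPD.  Along a geodesic of a cylinder metric `G(c',c')` and `⟪c,c'⟫/|c|²` are constant; hence if
`⟪c 0, c' 0⟫ = 0` then `|c|` is constant.  Proof: MCO with `V = W = c'` (`D c' = 0`), and
`⟪c,c'⟫/|c|² = G c c c'` (`IsCyl.radial`) with `D c = c' + chris(c',c) = c' - c' = 0` (`cyl`:
`chris H x v x = -v`); then `(|c|²)' = 2⟪c,c'⟫ = 0`. -/
def SpdStatement : Prop :=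
  ∀ (G : E5 → Bil E5), IsCyl G → ∀ c : ℝ → E5, ContDiff ℝ ∞ c → (∀ t, c t ∈ Om (Fin 5)) →
    (∀ t, deriv (deriv c) t = - chris G (c t) (deriv c t) (deriv c t)) →
    ∀ t, G (c t) (deriv c t) (deriv c t) = G (c 0) (deriv c 0) (deriv c 0) ∧
      (⟪c 0, deriv c 0⟫ = (0 : ℝ) → ‖c t‖ = ‖c 0‖ ∧ ⟪c t, deriv c t⟫ = (0 : ℝ))

/-- EXA.  Local (in phase space) geodesic flow on `[0,1]` with smooth dependence.  Let
`V(x,v) = (v, - chris G x v v)`, smooth on `Om × E`.  The functions `E(x,v) = G x v v` and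
`s(x,v) = ⟪x,v⟫/|x|² = G x x v` have zero derivative in direction `V` (as in SPD).  Let
`K = {(x,v) : e^{-2C} ≤ |x| ≤ e^{2C}, G x v v ≤ C²}`, compact in `Om × E` (`G` is continuous and
positive, so `G x v v ≥ m |v|²` for `x` in the compact annulus).  Take a smooth bump function `χ`,
`χ = 1` near `K`, compact support in `Om × E`; `V₁ = χ V` (zero outside) is smooth with compact
support, so bounded and globally Lipschitz; `exists_flow` (Helper13_RF/FlowV.lean) gives `ψ` on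
`[0,1]`.  Along `ψ` starting at `(x,v)` with `e^{-C} < |x| < e^C`, `G x v v < C²`: as long as the
trajectory stays in `Om × E`, `E` and `s` are constant, `(log |x|)' = χ s`, `|s| ≤ √E ≤ C`
(Cauchy-Schwarz, `G x x x = 1`), so `|log |x(t)|| ≤ 2C` on `[0,1]`: the trajectory stays in `K`
(continuity argument), where `χ = 1`. -/
def ExaStatement : Prop :=
  ∀ (G : E5 → Bil E5), IsCyl G → ∀ C : ℝ, 0 < C → ∃ ψ : ℝ → E5 × E5 → E5 × E5,
    ContDiffOn ℝ ∞ (fun q : ℝ × (E5 × E5) => ψ q.1 q.2) (Icc 0 1 ×ˢ univ) ∧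
    ∀ z : E5 × E5, Real.exp (-C) < ‖z.1‖ → ‖z.1‖ < Real.exp C → G z.1 z.2 z.2 < C ^ 2 →
      ψ 0 z = z ∧ ∀ t ∈ Icc (0 : ℝ) 1, (ψ t z).1 ∈ Om (Fin 5) ∧
        HasDerivWithinAt (fun s => ψ s z)
          ((ψ t z).2, - chris G (ψ t z).1 (ψ t z).2 (ψ t z).2) (Icc 0 1) t

/-- EXB.  The exponential map.  `ex (x,v) := (ψ_C 1 (x,v)).1` for any `C` large enough for `(x,v)`
(independent of `C` by UNQ; smooth near every point since one `C` works nearby).  Ray property: for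
`0 ≤ t ≤ 1`, `ex (x, t v) = (ψ_C t (x,v)).1` (UNQ: `s ↦ (ψ_C (ts) (x,v))` rescaled is the geodesic with
initial velocity `t v`).  So for `T > 0` the map `t ↦ ex (x, t • v)` is on `[0,T]` the geodesic
`s ↦ (ψ (s/T) (x, T v)).1`; it is smooth in `t ∈ ℝ`, its derivative at `0` is `v` (from the right is
enough), the geodesic equation holds for `t > 0`, for `t = 0` by continuity, and for `t < 0` by
`ex (x, t v) = ex (x, |t| (-v))` and `chris` quadratic. -/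
def ExbStatement : Prop := ∀ (G : E5 → Bil E5), IsCyl G → ∃ ex : E5 × E5 → E5, IsExp G ex

/-- HEX.  Scaling: `ex (c x, c v) = c ex (x, v)` for `c > 0`, since `x ↦ c x` is an isometry of the
cylinder (`chris H (c x) v w = c⁻¹ chris H x v w`, from `cyl`), by UNQ on `[0,1]`; and if `⟪x,v⟫ = 0`
then `‖ex (x,v)‖ = ‖x‖` (SPD applied to `t ↦ ex (x, t v)`). -/
def HexStatement : Prop :=
  ∀ (G : E5 → Bil E5) (ex : E5 × E5 → E5), IsCyl G → IsExp G ex →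
    (∀ c : ℝ, 0 < c → ∀ x ∈ Om (Fin 5), ∀ v, ex (c • x, c • v) = c • ex (x, v)) ∧
    (∀ x ∈ Om (Fin 5), ∀ v, ⟪x, v⟫ = (0 : ℝ) → ‖ex (x, v)‖ = ‖x‖)

/-- FRM.  Orthonormal frames of the normal bundle.
Case `κ = {0,1,2,3}`: `N = ℝ e_4`; for `ε = ±1` the form `G (ε e_4)` on `P` is positive definite, so
there is a linear `Q_ε : P → P` with `G (ε e_4) (Q_ε y) (Q_ε y') = ⟪y,y'⟫` (inverse square root of a
positive definite matrix, or Gram-Schmidt); put `Q z = ‖pN z‖ • Q_ε ∘ pP`, `ε = sign z_4` (smooth on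
`z_4 ≠ 0`; `G (λ ε e_4) = λ⁻² G (ε e_4)`).
Case `κ = {0,1}` (and `{2,3}` in the same way): for `σ ∈ N` invariance with `t = π/(2a)` (`Rt` fixes
`σ` and maps `e_0 ↦ e_1 ↦ -e_0`) gives `G σ e_0 e_0 = G σ e_1 e_1 =: n(σ)²` and `G σ e_0 e_1 = 0`; put
`Q z = (n (pN z))⁻¹ • pP`, `n(cσ) = c⁻¹ n(σ)`. -/
def FrmStatement : Prop :=
  ∀ (G : E5 → Bil E5) (κ : Finset (Fin 5)) (a b : ℝ), Setup G κ a b →
    ∃ Q : E5 → (E5 →L[ℝ] E5), IsFrm G κ Q

/-- NEX.  The normal exponential map `F z = ex (pN z, Q (pN z) (pP z))`.  `smooth`: composition.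
`base`: `ex (σ,0) = σ`.  `norm`: `⟪σ, Q σ y⟫ = 0` since `Q σ y ∈ P`.  `hom`: `HEX` and `IsFrm.hom`.
`geo`: for `σ ∈ N`, `y ∈ P`: `F (σ + t y) = ex (σ, t Q σ y)` is a geodesic with velocity
`fderiv F (σ + t y) y` and second derivative `fderiv (fun z => fderiv F z y) (σ + t y) y`.
`dN`: `F = id` on `N`.  For `w ∈ P`: `fderiv F σ w = d/dt ex (σ, t Q σ w)|_0 = Q σ w`; so `dP`, `iso`. -/
def NexStatement : Prop :=
  ∀ (G : E5 → Bil E5) (κ : Finset (Fin 5)) (a b : ℝ) (ex : E5 × E5 → E5) (Q : E5 → (E5 →L[ℝ] E5)),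
    Setup G κ a b → IsExp G ex → IsFrm G κ Q → ∃ F : E5 → E5, NData G κ F

/-! ## Part C: Jacobi fields along the normal geodesics -/

/-- CTN (real analysis, tangent comparison).  `q = β + tan t • α` has
`q' = β' + (1 + tan²) α + 2 tan β ≥ δ + 2 tan β + tan² α ≥ 0` (`β² ≤ αδ`), `q(0) = 0`, so `q ≥ 0` on
`[0,π/2)`; then `(α/cos²)' = 2 (β cos + α sin)/cos³ = 2 q/cos² ≥ 0`, so `α ≥ α(0) cos²`. -/
def CtnStatement : Prop :=
  ∀ α β β' δ : ℝ → ℝ, (∀ t, HasDerivAt α (2 * β t) t) → (∀ t, HasDerivAt β (β' t) t) →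
    (∀ t, 0 ≤ α t) → (∀ t, β t ^ 2 ≤ α t * δ t) → (∀ t, 0 ≤ δ t) → (∀ t, δ t - α t ≤ β' t) →
    β 0 = 0 → ∀ t, 0 ≤ t → t < Real.pi / 2 →
      - Real.tan t * α t ≤ β t ∧ α 0 * Real.cos t ^ 2 ≤ α t

/-- CCT (real analysis, cotangent comparison).  On `(0,π)` let `q = β - cot t • α`;
`q' = β' + (1 + cot²) α - 2 cot β ≥ δ - 2 cot β + cot² α ≥ 0`; `q → 0` as `t → 0+` (`α(0) = β(0) = 0`,
so `α = O(t²)` by `α' = 2β`, `β = O(t)`).  So `q ≥ 0`, `(α/sin²)' = 2 q / sin² ≥ 0`, and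
`α/sin² → β'(0)` as `t → 0+`; hence `α ≥ β'(0) sin²`. -/
def CctStatement : Prop :=
  ∀ α β β' δ : ℝ → ℝ, (∀ t, HasDerivAt α (2 * β t) t) → (∀ t, HasDerivAt β (β' t) t) →
    (∀ t, 0 ≤ α t) → (∀ t, β t ^ 2 ≤ α t * δ t) → (∀ t, 0 ≤ δ t) → (∀ t, δ t - α t ≤ β' t) →
    α 0 = 0 → β 0 = 0 → ∀ t, 0 < t → t < Real.pi →
      Real.cot t * α t ≤ β t ∧ β' 0 * Real.sin t ^ 2 ≤ α t

/-- GAU.  Gauss lemma: `G(F z)(DF z y, DF z w) = ⟪y,w⟫`, `y = pP z`.  Proof: fix `σ = pN z`, `y`, `w`;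
`c(s,t) = F(σ + s w_N + t (y + s w_P))` (`w_N = pN w`, `w_P = pP w`; defined for small `s`), a variation
through geodesics (`geo` at `σ + s w_N`), `T = ∂_t c`, `J = ∂_s c`.  `|T|²(s,t) = |y + s w_P|²` (at
`t = 0` by `iso`, constant in `t` by `geo` and MCO).  At `s = 0`: `∂_t G(T,J) = G(T, D_t J) = G(T, D_s T)
= ½ ∂_s |T|² = ⟪y,w⟫`, and at `t = 0` `G(T,J) = G σ (DF σ y) w_N = 0` (`dN`, `dP`, EQV(2)).  So at
`t = 1`: `G(T,J) = ⟪y,w⟫`, where `T = DF z y`, `J = DF z (w_N + w_P) = DF z w`. -/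
def GauStatement : Prop :=
  ∀ (G : E5 → Bil E5) (κ : Finset (Fin 5)) (a b : ℝ) (F : E5 → E5), Setup G κ a b → NData G κ F →
    ∀ z, pN κ z ≠ 0 → ∀ w,
      G (F z) (fderiv ℝ F z (pP κ z)) (fderiv ℝ F z w) = ⟪pP κ z, w⟫

/-- FLA.  Derivatives along a unit speed normal geodesic `gam F σ y` (`σ ∈ N \ {0}`, `y ∈ P`,
`|y| = 1`; all `t ∈ ℝ`).  `Vf w` is the variation field at `s = 0` of
`c(s,t) = F(σ + s w_N + t(y + s w_P))` (`w_N = pN w`, `w_P = pP w`; a variation through geodesics by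
`geo` at `σ + s w_N`, direction `y + s w_P`), `Tv = ∂_t c`, `DVf w` is the covariant derivative of
`Vf w`.  First line: MCO with `c' = T`.  Second: MCO and JEQ (covariant derivative of `DVf w` is
`riem(T,V)T`).  Also `Vf`, `DVf` are linear in `w`. -/
def FlaStatement : Prop :=
  ∀ (G : E5 → Bil E5) (κ : Finset (Fin 5)) (a b : ℝ) (F : E5 → E5), Setup G κ a b → NData G κ F →
    ∀ σ y, pP κ σ = 0 → σ ≠ 0 → pN κ y = 0 → ‖y‖ = 1 → ∀ w w' : E5, ∀ t : ℝ,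
      HasDerivAt (fun s => G (gam F σ y s) (Vf κ F σ y w s) (Vf κ F σ y w' s))
        (G (gam F σ y t) (DVf G κ F σ y w t) (Vf κ F σ y w' t)
          + G (gam F σ y t) (Vf κ F σ y w t) (DVf G κ F σ y w' t)) t ∧
      HasDerivAt (fun s => G (gam F σ y s) (DVf G κ F σ y w s) (Vf κ F σ y w' s))
        (G (gam F σ y t) (riem G (gam F σ y t) (Tv F σ y t) (Vf κ F σ y w t) (Tv F σ y t))
            (Vf κ F σ y w' t)
          + G (gam F σ y t) (DVf G κ F σ y w t) (DVf G κ F σ y w' t)) t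

/-- FLL.  Linearity of `Vf`, `DVf` in `w` (`Vf w` is differentiable in `t` since `F` is smooth). -/
def FllStatement : Prop :=
  ∀ (G : E5 → Bil E5) (κ : Finset (Fin 5)) (a b : ℝ) (F : E5 → E5), Setup G κ a b → NData G κ F →
    ∀ σ y, pP κ σ = 0 → σ ≠ 0 → pN κ y = 0 → ∀ w w' : E5, ∀ r t : ℝ,
      Vf κ F σ y (w + w') t = Vf κ F σ y w t + Vf κ F σ y w' t ∧
      Vf κ F σ y (r • w) t = r • Vf κ F σ y w t ∧
      DVf G κ F σ y (w + w') t = DVf G κ F σ y w t + DVf G κ F σ y w' t ∧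
      DVf G κ F σ y (r • w) t = r • DVf G κ F σ y w t

/-- FLB.  Field data, pointwise facts (notation of FLA).
(3) `G(T,T) = 1`: GAU at `z = σ + t y` for `t ≠ 0` (divide by `t²`), `iso` for `t = 0`.
(4) `Vf w 0 = w_N` (`dN`).
(5) `G(DVf w 0, w'_N) = 0`: `DVf w 0 = D²F(σ)(y, w_N) + DF σ w_P + chris(σ)(DF σ y, w_N)`.  The second term
is in `P` (`dP`), the first is the derivative along `w_N ∈ N` of `σ' ↦ DF σ' y ∈ P` (symmetry of `D²F`),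
so in `P`; `P ⟂ N` for `G σ` (EQV(2)).  Third: `G(chris(n,u), n') = D_n G (u,n') - G(u, chris(n,n')) =
0 - 0` for `u ∈ P`, `n, n' ∈ N` (EQV(2),(3); `compat`).
(7) curvature: `G(riem(T,V)T, V) = - G(riem(V,T)T, V) ≥ -(G(V,V) G(T,T) - G(V,T)²) ≥ -G(V,V)` by `sec`.
(8) `w ∈ P`: `Vf w t = t DF w`, so `DVf w 0 = DF σ w` and `G(DVf w 0, DVf w 0) = |w|²` (`iso`).
(9) `Vf y t = t T`, `DVf y t = T` (`geo`).
(10) `Vf σ t = gam t` (differentiate `hom` at `c = 1`: `DF z (pN z) = F z`), `DVf σ t = 0`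
(`chris G x v x = -v`).
(11) `G(gam, Vf w) = ⟪σ,w⟫/|σ|²` (`IsCyl.radial`, and `‖F z‖² = ‖pN z‖²` differentiated).
(12) `G(T, Vf w) = t ⟪y,w⟫` (GAU at `z = σ + t y`; for `t = 0` `dN`, `dP`, EQV(2)). -/
def FlbStatement : Prop :=
  ∀ (G : E5 → Bil E5) (κ : Finset (Fin 5)) (a b : ℝ) (F : E5 → E5), Setup G κ a b → NData G κ F →
    ∀ σ y, pP κ σ = 0 → σ ≠ 0 → pN κ y = 0 → ‖y‖ = 1 → ∀ w w' : E5, ∀ t : ℝ,
      G (gam F σ y t) (Tv F σ y t) (Tv F σ y t) = 1 ∧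
      Vf κ F σ y w 0 = pN κ w ∧
      G σ (DVf G κ F σ y w 0) (pN κ w') = 0 ∧
      - G (gam F σ y t) (Vf κ F σ y w t) (Vf κ F σ y w t) ≤
        G (gam F σ y t) (riem G (gam F σ y t) (Tv F σ y t) (Vf κ F σ y w t) (Tv F σ y t))
          (Vf κ F σ y w t) ∧
      (pN κ w = 0 → G σ (DVf G κ F σ y w 0) (DVf G κ F σ y w 0) = ⟪w, w⟫) ∧
      (Vf κ F σ y y t = t • Tv F σ y t ∧ DVf G κ F σ y y t = Tv F σ y t) ∧
      (Vf κ F σ y σ t = gam F σ y t ∧ DVf G κ F σ y σ t = 0) ∧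
      G (gam F σ y t) (gam F σ y t) (Vf κ F σ y w t) = ⟪σ, w⟫ / ‖σ‖ ^ 2 ∧
      G (gam F σ y t) (Tv F σ y t) (Vf κ F σ y w t) = t * ⟪y, w⟫

/-- FLC.  Symmetry `G(DV,V') = G(V,DV')`: the derivative of the difference (FLA, twice) is
`G(R(T,V)T,V') - G(V,R(T,V')T) = 0` by the pair symmetry of `riem` (SymStatement), and it is `0` at
`t = 0` by FLB (4),(5). -/
def FlcStatement : Prop :=
  ∀ (G : E5 → Bil E5) (κ : Finset (Fin 5)) (a b : ℝ) (F : E5 → E5), Setup G κ a b → NData G κ F →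
    ∀ σ y, pP κ σ = 0 → σ ≠ 0 → pN κ y = 0 → ‖y‖ = 1 → ∀ w w' : E5, ∀ t : ℝ,
      G (gam F σ y t) (DVf G κ F σ y w t) (Vf κ F σ y w' t) =
        G (gam F σ y t) (Vf κ F σ y w t) (DVf G κ F σ y w' t)

/-- BND.  Consequences of FLA, FLB, CTN, CCT with `α = G(V_w,V_w)`, `β = G(DV_w,V_w)`, `δ = G(DV_w,DV_w)`
(Cauchy-Schwarz `β² ≤ αδ` for the positive form `G`; `β' = G(riem(T,V)T,V) + δ ≥ δ - α`; `β(0) = 0` by
FLB (4),(5); for `w ∈ P` also `α(0) = 0`, and `β'(0) = |w|²` by (8)). -/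
def BndStatement : Prop :=
  ∀ (G : E5 → Bil E5) (κ : Finset (Fin 5)) (a b : ℝ) (F : E5 → E5), Setup G κ a b → NData G κ F →
    ∀ σ y, pP κ σ = 0 → σ ≠ 0 → pN κ y = 0 → ‖y‖ = 1 → ∀ w : E5, ∀ t : ℝ,
      (0 ≤ t → t < Real.pi / 2 →
        - Real.tan t * G (gam F σ y t) (Vf κ F σ y w t) (Vf κ F σ y w t) ≤
          G (gam F σ y t) (DVf G κ F σ y w t) (Vf κ F σ y w t) ∧
        G σ (pN κ w) (pN κ w) * Real.cos t ^ 2 ≤
          G (gam F σ y t) (Vf κ F σ y w t) (Vf κ F σ y w t)) ∧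
      (pN κ w = 0 → 0 < t → t < Real.pi →
        Real.cot t * G (gam F σ y t) (Vf κ F σ y w t) (Vf κ F σ y w t) ≤
          G (gam F σ y t) (DVf G κ F σ y w t) (Vf κ F σ y w t) ∧
        ⟪w, w⟫ * Real.sin t ^ 2 ≤ G (gam F σ y t) (Vf κ F σ y w t) (Vf κ F σ y w t))

/-- INV.  `fderiv F z` is injective (hence invertible) for `|pP z| < π/2`.  For `z = σ + t y`, `|y| = 1`,
`0 < t < π/2`: if `DF z u = 0`, let `w = pN u + t⁻¹ pP u`, so `Vf w t = DF z u = 0`; BND first part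
gives `pN w = 0`, second part `w = 0`.  For `z = σ`: `dN`, `dP`, `iso`. -/
def InvStatement : Prop :=
  ∀ (G : E5 → Bil E5) (κ : Finset (Fin 5)) (a b : ℝ) (F : E5 → E5), Setup G κ a b → NData G κ F →
    ∀ z, pN κ z ≠ 0 → ‖pP κ z‖ < Real.pi / 2 → Function.Injective (fderiv ℝ F z)

/-- NOZ.  The Killing field `Ag` does not vanish at `F z`, `0 < |pP z| < π`.  `z = σ + t y`, `|y| = 1`.
The maps `c(s,t) = Rt s (gam t)` form a variation through geodesics (EQV(1)), with variation field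
`J(t) = Ag (gam t)` at `s = 0`; `D = J' + chris(T,J)` satisfies `D' + chris(T,D) = riem(T,J)T` (JEQ).
`α = G(J,J)`, `β = G(D,J)`, `β' = G(riem(T,J)T,J) + G(D,D) ≥ δ - α` (as FLB(7), `G(T,T) = 1`),
`α(0) = β(0) = 0` since `J(0) = Ag σ = 0`, `β'(0) = G(D(0),D(0))`, `D(0) = Ag (T 0)`, `T 0 = DF σ y ∈ P`
nonzero (`dP`, `iso`), so `D(0) ≠ 0` and CCT gives `α(t) ≥ β'(0) sin² t > 0` on `(0,π)`. -/
def NozStatement : Prop :=
  ∀ (G : E5 → Bil E5) (κ : Finset (Fin 5)) (a b : ℝ) (F : E5 → E5), Setup G κ a b → NData G κ F →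
    ∀ z, pN κ z ≠ 0 → 0 < ‖pP κ z‖ → ‖pP κ z‖ < Real.pi → pP κ (F z) ≠ 0

/-- COA.  If `F` is not injective on `|pP z| < π/2`, there is a coincidence where the two geodesics
fit together.  Suppose `F z₁ = F z₂`, `z₁ ≠ z₂`, `|y_i| < π/2` (`σ_i = pN z_i`, `y_i = pP z_i`).
`|σ₁| = |σ₂|` (`norm`), by `hom` we may assume `|σ_i| = 1`.  Let `ρ < π/2` be the maximum of the
`|y_i|`, `K = {z : |pN z| = 1, |pP z| ≤ ρ}` (compact), `C = {(z₁,z₂) ∈ K² : F z₁ = F z₂, z₁ ≠ z₂}`; `C`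
is closed since `F` is locally injective at every point of `K` (INV and the inverse function theorem),
nonempty.  Take a minimum point of `|y₁| + |y₂|` on `C`.
(i) `y₁ ≠ 0`: otherwise `F z₂ = F z₁ = σ₁ ∈ N`, so `y₂ = 0` by NOZ, `z₂ = σ₂ = F z₂ = z₁`.  Same for `y₂`.
(ii) Let `q = F z_i`, `T_i = DF z_i y_i / |y_i|`, `G q T_i T_i = 1` (GAU) and `⟪q,T_i⟫ = 0`.  If
`T₁ + T₂ ≠ 0`, let `u = -(T₁+T₂)`, `q(s)` a curve on the unit sphere with `q'(0) = u`, `z_i(s)` the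
curves with `F z_i(s) = q(s)` (local inverses); `|pN z_i(s)| = 1`, `z₁(s) ≠ z₂(s)` for small `s`, and by
GAU `d/ds |y_i(s)| = ⟪y_i, z_i'⟫/|y_i| = G q (T_i, u) = -(1 + G q T₁ T₂) < 0` (strict Cauchy-Schwarz):
both `|y_i|` get smaller for small `s > 0`, contradiction.  So `T₁ = -T₂`. -/
def CoaStatement : Prop :=
  ∀ (G : E5 → Bil E5) (κ : Finset (Fin 5)) (a b : ℝ) (F : E5 → E5), Setup G κ a b → NData G κ F →
    (∃ z₁ z₂, pN κ z₁ ≠ 0 ∧ pN κ z₂ ≠ 0 ∧ ‖pP κ z₁‖ < Real.pi / 2 ∧ ‖pP κ z₂‖ < Real.pi / 2 ∧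
      F z₁ = F z₂ ∧ z₁ ≠ z₂) →
    ∃ z₁ z₂, pN κ z₁ ≠ 0 ∧ pN κ z₂ ≠ 0 ∧ 0 < ‖pP κ z₁‖ ∧ ‖pP κ z₁‖ < Real.pi / 2 ∧
      0 < ‖pP κ z₂‖ ∧ ‖pP κ z₂‖ < Real.pi / 2 ∧ F z₁ = F z₂ ∧
      ‖pP κ z₁‖⁻¹ • fderiv ℝ F z₁ (pP κ z₁) = - (‖pP κ z₂‖⁻¹ • fderiv ℝ F z₂ (pP κ z₂))

/-- COB.  Such a coincidence is impossible.  `γ_i(t) = F(σ_i + t y_i/|y_i|)`, `ℓ_i = |y_i|`;
`t ↦ γ₁(ℓ₁ + t)` and `t ↦ γ₂(ℓ₂ - t)`, `t ∈ [0,ℓ₂]`, are geodesics with the same initial data, so equal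
(UNQ); at `t = ℓ₂`: `γ₁(ℓ₁+ℓ₂) = σ₂ ∈ N`, contradiction to NOZ as `0 < ℓ₁+ℓ₂ < π`. -/
def CobStatement : Prop :=
  ∀ (G : E5 → Bil E5) (κ : Finset (Fin 5)) (a b : ℝ) (F : E5 → E5), Setup G κ a b → NData G κ F →
    ∀ z₁ z₂, pN κ z₁ ≠ 0 → pN κ z₂ ≠ 0 → 0 < ‖pP κ z₁‖ → ‖pP κ z₁‖ < Real.pi / 2 →
      0 < ‖pP κ z₂‖ → ‖pP κ z₂‖ < Real.pi / 2 → F z₁ = F z₂ →
      ‖pP κ z₁‖⁻¹ • fderiv ℝ F z₁ (pP κ z₁) ≠ - (‖pP κ z₂‖⁻¹ • fderiv ℝ F z₂ (pP κ z₂))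

/-- COI.  Injectivity of `F` on `|pP z| < π/2`: COA and COB. -/
def CoiStatement : Prop :=
  ∀ (G : E5 → Bil E5) (κ : Finset (Fin 5)) (a b : ℝ) (F : E5 → E5), Setup G κ a b → NData G κ F →
    ∀ z₁ z₂, pN κ z₁ ≠ 0 → pN κ z₂ ≠ 0 → ‖pP κ z₁‖ < Real.pi / 2 → ‖pP κ z₂‖ < Real.pi / 2 →
      F z₁ = F z₂ → z₁ = z₂

/-! ## Part D: volume -/

/-- LIN.  Linear algebra.  `B`, `C` symmetric bilinear forms on `ℝ^5`, `B` positive definite;
`tr (gm(B)⁻¹ gm(C)) = ∑ C(f_i,f_i)` for every `B`-orthonormal basis `f`.  Choose `f₁ ∥ y`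
(`C = τ B` there), `f₂ ∥ σ` (`C = 0`), then a `B`-orthonormal basis of `W = P ∩ y^⊥`
(`dim W = |κ| - 1`; `W` is `B`-orthogonal to `y` and `σ`; `C ≥ c B` on `P`), completed by `4 - |κ|`
vectors where `C ≥ -d B`. -/
def LinStatement : Prop :=
  ∀ (κ : Finset (Fin 5)) (B C : Bil E5) (τ c d : ℝ) (σ y : E5),
    (κ.card = 4 ∨ κ.card = 2) →
    pP κ σ = 0 → σ ≠ 0 → pN κ y = 0 → y ≠ 0 →
    (∀ v w, B v w = B w v) → (∀ v, v ≠ 0 → 0 < B v v) → (∀ v w, C v w = C w v) →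
    (∀ w, ⟪y, w⟫ = (0 : ℝ) → B y w = 0) → (∀ w, ⟪σ, w⟫ = (0 : ℝ) → B σ w = 0) →
    (∀ w, C y w = τ * B y w) → (∀ w, C σ w = 0) →
    (∀ w, - d * B w w ≤ C w w) → (∀ w, pN κ w = 0 → c * B w w ≤ C w w) →
    τ + ((κ.card - 1 : ℕ) : ℝ) * c - ((4 - κ.card : ℕ) : ℝ) * d ≤ ((gm B)⁻¹ * gm C).trace

/-- SDF.  Facts on `gm`, `sd`: positivity of the Gram determinant of a positive definite form;
`gm (B(D·,D·)) = Mᵀ gm B M` with `M` the matrix of `D`, so `sd (B(D·,D·)) = |det D| sd B`; continuity. -/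
def SdfStatement : Prop :=
  ∀ (ι : Type) [Fintype ι] [DecidableEq ι],
    (∀ B : Bil (E ι), (∀ v w, B v w = B w v) → (∀ v, v ≠ 0 → 0 < B v v) → 0 < (gm B).det) ∧
    (∀ (B : Bil (E ι)) (D : E ι →L[ℝ] E ι), sd (B.bilinearComp D D) =
      |LinearMap.det ((D : E ι →L[ℝ] E ι) : E ι →ₗ[ℝ] E ι)| * sd B) ∧
    (∀ (c : ℝ) (B : Bil (E ι)), 0 ≤ c → sd (c ^ 2 • B) = c ^ Fintype.card ι * sd B) ∧
    (∀ (G : E ι → Bil (E ι)) (U : Set (E ι)), IsMetricOn G U → ContinuousOn (fun x => sd (G x)) U)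

/-- DET.  Lower bound of the volume density of `F^* G`: for `σ ∈ N \ {0}`, `y ∈ P`, `0 < |y| < π/2`:
`Dz(σ + y) ≥ Dz(σ) jac |y|`.  Let `|y| = r`, `y = r y₁`; `B_t(w,w') = G(V_w,V_w')`, `C_t = G(DV_w,V_w')`
along `gam F σ y₁` (bilinear in `w,w'`, FLL; `B_t > 0` for `0 < t < π/2` by BND, `C_t` symmetric, FLC).
`B_t' = 2 C_t`, so `(log det gm B_t)' = 2 tr (gm(B_t)⁻¹ gm(C_t)) ≥ 2 (1/t + (k-1) cot t - (4-k) tan t)`
by LIN (`C(y₁,·) = t⁻¹ B(y₁,·)`, `C(σ,·) = 0`, orthogonality from FLB (11),(12)), `k = |κ|`.  Since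
`V_{e_i}(t) = t^{[i∈κ]} DF(σ + t y₁) e_i` we have `det gm B_t = t^{2k} Dz(σ + t y₁)²`.  Hence
`Dz(σ + t y₁) / jac t` is nondecreasing on `(0,π/2)`, with limit `Dz(σ)` at `t → 0+` (continuity). -/
def DetStatement : Prop :=
  ∀ (G : E5 → Bil E5) (κ : Finset (Fin 5)) (a b : ℝ) (F : E5 → E5), Setup G κ a b → NData G κ F →
    ∀ σ y, pP κ σ = 0 → σ ≠ 0 → pN κ y = 0 → 0 < ‖y‖ → ‖y‖ < Real.pi / 2 →
      Dz G F σ * jac κ ‖y‖ ≤ Dz G F (σ + y)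

/-- CHV.  Change of variables: `F` is injective and smooth on the open set
`W = {z : 1 < |pN z| < e, |pP z| < π/2}`, maps it into the slab (`norm`); and
`Dz z = |det DF z| sd (G (F z))` (`gm (pullb G F z) = Dᵀ gm (G (F z)) D`).  So
`∫_W Dz = ∫_{F(W)} sd G ≤ ∫_slab sd G` (`integral_image_eq_integral_abs_det_fderiv_smul`; `sd G` is
continuous and bounded on the slab since the closed annulus is a compact subset of `Om`).  Also give
integrability of `Dz` on `W`. -/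
def ChvStatement : Prop :=
  ∀ (G : E5 → Bil E5) (κ : Finset (Fin 5)) (a b : ℝ) (F : E5 → E5), Setup G κ a b → NData G κ F →
    IntegrableOn (fun z => Dz G F z)
      {z | 1 < ‖pN κ z‖ ∧ ‖pN κ z‖ < Real.exp 1 ∧ ‖pP κ z‖ < Real.pi / 2} ∧
    ∫ z in {z | 1 < ‖pN κ z‖ ∧ ‖pN κ z‖ < Real.exp 1 ∧ ‖pP κ z‖ < Real.pi / 2}, Dz G F z ≤
      ∫ x in slab (Fin 5), sd (G x)

/-- POL.  Polar coordinates (`integral_fun_norm_addHaar` or similar; volumes of the unit balls in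
`ℝ^4`, `ℝ^2` are `π²/2`, `π`; `∫_0^{π/2} sin³ = 2/3`, `∫_0^{π/2} sin cos² = 1/3`). -/
def PolStatement : Prop :=
  (IntegrableOn (fun y : E (Fin 4) => (Real.sin ‖y‖ / ‖y‖) ^ 3) {y | ‖y‖ < Real.pi / 2} ∧
    ∫ y in {y : E (Fin 4) | ‖y‖ < Real.pi / 2}, (Real.sin ‖y‖ / ‖y‖) ^ 3 =
      4 * Real.pi ^ 2 / 3) ∧
  (IntegrableOn (fun y : E (Fin 2) => Real.sin ‖y‖ / ‖y‖ * Real.cos ‖y‖ ^ 2)
      {y | ‖y‖ < Real.pi / 2} ∧
    ∫ y in {y : E (Fin 2) | ‖y‖ < Real.pi / 2}, Real.sin ‖y‖ / ‖y‖ * Real.cos ‖y‖ ^ 2 =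
      2 * Real.pi / 3)

/-- IN4.  Case `κ = {0,1,2,3}`: `Dz G F σ = 1/|σ|` for `σ ∈ N = ℝ e_4` (`dN`, `dP`, `iso`, EQV(2),
`G σ σ σ = 1`), so by DET, Fubini (`ℝ^5 = ℝ^4 × ℝ`) and polar coordinates in `ℝ^4`
(POL):
`∫_W Dz ≥ ∫_{1<|λ|<e} dλ/|λ| * ∫_{|y|<π/2} (sin|y|/|y|)³ dy = 2 * 4 (π²/2) ∫_0^{π/2} sin³ = 8π²/3`. -/
def In4Statement : Prop :=
  ∀ (G : E5 → Bil E5) (a b : ℝ) (F : E5 → E5), Setup G {0, 1, 2, 3} a b → NData G {0, 1, 2, 3} F →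
    IntegrableOn (fun z => Dz G F z)
      {z | 1 < ‖pN {0, 1, 2, 3} z‖ ∧ ‖pN {0, 1, 2, 3} z‖ < Real.exp 1 ∧
        ‖pP {0, 1, 2, 3} z‖ < Real.pi / 2} →
    (∀ σ y, pP {0, 1, 2, 3} σ = 0 → σ ≠ 0 → pN {0, 1, 2, 3} y = 0 → 0 < ‖y‖ →
      ‖y‖ < Real.pi / 2 → Dz G F σ * (Real.sin ‖y‖ / ‖y‖) ^ 3 ≤ Dz G F (σ + y)) →
    8 * Real.pi ^ 2 / 3 ≤ ∫ z in {z | 1 < ‖pN {0, 1, 2, 3} z‖ ∧
      ‖pN {0, 1, 2, 3} z‖ < Real.exp 1 ∧ ‖pP {0, 1, 2, 3} z‖ < Real.pi / 2}, Dz G F z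

/-- IN2.  Case `κ = {0,1}` or `{2,3}`: `Dz G F σ = sd (h σ')`, `h = pullb G (inc κ)`, `σ = inc κ σ'`
(block form of `gm (pullb G F σ)`: `G σ|_N` and the identity on `P`), so by DET, Fubini
(`ℝ^5 = ℝ^3 × ℝ^2`) and polar coordinates in `ℝ^2`:
`∫_W Dz ≥ ∫_{slab (Fin 3)} sd h * 2π ∫_0^{π/2} sin r cos² r dr = (2π/3) ∫_{slab (Fin 3)} sd h`. -/
def In2Statement : Prop :=
  ∀ (G : E5 → Bil E5) (κ : Finset (Fin 5)) (a b : ℝ) (F : E5 → E5), (κ = {0, 1} ∨ κ = {2, 3}) →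
    Setup G κ a b → NData G κ F →
    IntegrableOn (fun z => Dz G F z)
      {z | 1 < ‖pN κ z‖ ∧ ‖pN κ z‖ < Real.exp 1 ∧ ‖pP κ z‖ < Real.pi / 2} →
    (∀ σ y, pP κ σ = 0 → σ ≠ 0 → pN κ y = 0 → 0 < ‖y‖ → ‖y‖ < Real.pi / 2 →
      Dz G F σ * (Real.sin ‖y‖ / ‖y‖ * Real.cos ‖y‖ ^ 2) ≤ Dz G F (σ + y)) →
    2 * Real.pi / 3 * ∫ x in slab (Fin 3), sd (pullb G (inc κ) x) ≤
      ∫ z in {z | 1 < ‖pN κ z‖ ∧ ‖pN κ z‖ < Real.exp 1 ∧ ‖pP κ z‖ < Real.pi / 2}, Dz G F z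

/-! ## Part E: the fixed sphere and Gauss-Bonnet in dimension two -/

/-- RES.  The fixed three-space is totally geodesic: `h = pullb G (inc κ)` is a cylinder metric on
`ℝ^3 \ {0}` (`inc κ` is a linear isometry), `chris G (inc y) (inc v) (inc w) = inc (chris h y v w)`
(EQV(3): the left side is `inc` of something; compare with `chris_eq_iff` for `h`), i.e. `StarOn`; so by
naturality (`nat`) `inc (riem h y u v w) = riem G (inc y) (inc u) (inc v) (inc w)` and `SecLe h`. -/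
def ResStatement : Prop :=
  ∀ (G : E5 → Bil E5) (κ : Finset (Fin 5)) (a b : ℝ), (κ = {0, 1} ∨ κ = {2, 3}) →
    Setup G κ a b → IsCyl (pullb G (inc κ)) ∧ SecLe (pullb G (inc κ))

/-- cross product in `ℝ^3` -/
def cr (u v : E3) : E3 :=
  (EuclideanSpace.equiv (Fin 3) ℝ).symm
    ![u 1 * v 2 - u 2 * v 1, u 2 * v 0 - u 0 * v 2, u 0 * v 1 - u 1 * v 0]

/-- frames as in GBF -/
structure IsFrame3 (h : E3 → Bil E3) (A : E3 → (E3 →L[ℝ] E3)) : Prop where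
  smooth : ContDiffOn ℝ ∞ A (Om (Fin 3))
  hom : ∀ c : ℝ, 0 < c → ∀ x ∈ Om (Fin 3), A (c • x) = c⁻¹ • A x
  ortho : ∀ x ∈ Om (Fin 3), ∀ v w, ⟪A x v, A x w⟫ = h x v w
  radial : ∀ x ∈ Om (Fin 3), A x x = ‖x‖⁻¹ • x
  det : ∀ x ∈ Om (Fin 3), 0 < LinearMap.det ((A x : E3 →L[ℝ] E3) : E3 →ₗ[ℝ] E3)

/-- GBF.  Orthonormal frames for a cylinder metric `h` on `ℝ^3 \ {0}`: there is a smooth field
`A x` of linear maps, homogeneous of degree `-1`, with `⟪A x v, A x w⟫ = h x v w`,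
`A x x = x/|x|` and `det (A x) > 0`.  Explicitly, with `ξ = x/|x|`, `g = |x|² h x` (as a symmetric
operator for the Euclidean product; `g ξ = ξ`), `g' = g - ξ ξᵀ`, `δ = √det g`,
`A x = |x|⁻¹ (ξ ξᵀ + (g' + δ (1 - ξ ξᵀ)) / √(tr g' + 2 δ))`: on `ξ^⊥` the Cayley-Hamilton theorem
`g'² = (tr g') g' - δ²` gives `(g' + δ)² = (tr g' + 2δ) g'`.  (Any other construction of smooth frames
with the four properties is fine.) -/
def GbfStatement : Prop :=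
  ∀ (h : E3 → Bil E3), IsCyl h → ∃ A : E3 → (E3 →L[ℝ] E3), IsFrame3 h A

/-- the `i`-th partial derivative of the `j`-th component of a one-form -/
def pdf (α : E3 → E3) (i j : Fin 3) (x : E3) : ℝ := (fderiv ℝ α x (eb i)) j

/-- `⟪x, curl α x⟫` -/
def xcurl (α : E3 → E3) (x : E3) : ℝ :=
  x 0 * (pdf α 1 2 x - pdf α 2 1 x) + x 1 * (pdf α 2 0 x - pdf α 0 2 x)
    + x 2 * (pdf α 0 1 x - pdf α 1 0 x)

/-- GBW.  Connection form in the frames `A`: let `om(v) ∈ ℝ^3` be the axial vector of the skew map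
`s ↦ A (D_v (A⁻¹) s + chris h x v (A⁻¹ s))` (skew since the connection is metric: differentiate
`h(A⁻¹ s, A⁻¹ s') = ⟪s,s'⟫`), i.e. `A ∇_v (A⁻¹ s) = D_v s + om(v) × s` for smooth `s(x)`.  `om` is smooth,
homogeneous of degree `-1`.  The field `x` is parallel (`chris h x v x = -v`, `cyl`) and `A x = ξ = x/|x|`:
`D_v ξ + om(v) × ξ = 0`.  Curvature: `A R(u,v) A⁻¹ s = Ω × s` with
`Ω = D_u om(v) - D_v om(u) + om(u) × om(v)` (constant `u, v`; definition of `riem`, Jacobi identity for the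
cross product). -/
def GbwStatement : Prop :=
  ∀ (h : E3 → Bil E3), IsCyl h → ∀ A : E3 → (E3 →L[ℝ] E3), IsFrame3 h A →
    ∃ om : E3 → (E3 →L[ℝ] E3), ContDiffOn ℝ ∞ om (Om (Fin 3)) ∧
      (∀ c : ℝ, 0 < c → ∀ x ∈ Om (Fin 3), om (c • x) = c⁻¹ • om x) ∧
      (∀ x ∈ Om (Fin 3), ∀ v, cr (om x v) (‖x‖⁻¹ • x) = - fderiv ℝ (fun y : E3 => ‖y‖⁻¹ • y) x v) ∧
      (∀ x ∈ Om (Fin 3), ∀ u v s, A x (riem h x u v s) =
        cr (fderiv ℝ (fun y => om y v) x u - fderiv ℝ (fun y => om y u) x v + cr (om x u) (om x v))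
          (A x s))

/-- GBC.  Pointwise Gauss-Bonnet inequality.  `om(v) = -ξ × D_v ξ + α(v) ξ`, `α(v) = ⟪om(v), ξ⟫` (`α` as a
vector field: `⟪α x, v⟫ = ⟪om x v, ξ⟫`).  `Ω ∥ ξ` (or only its `ξ`-component is needed), and
`⟪Ω,ξ⟫ = (dα)(u,v) - ⟪ξ, D_u ξ × D_v ξ⟫ = ⟪curl α, u × v⟫ - |x|⁻³ ⟪x, u × v⟫`.  For tangential `u, v` with
`u × v = x`: `h(R(u,v)v,u) = ⟪Ω × A v, A u⟫ = -⟪Ω,ξ⟫ det(A x, A u, A v) = -⟪Ω,ξ⟫ det A |x|²` (`A u`,
`A v` are orthogonal to `ξ`), squared area `(det A |x|²)²`, and `det A = sd (h x)`; `SecLe` gives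
`-⟪Ω,ξ⟫ ≤ sd (h x) |x|²`, i.e. `|x|⁻¹ - xcurl α x ≤ |x|² sd (h x)`. -/
def GbcStatement : Prop :=
  ∀ (h : E3 → Bil E3), IsCyl h → SecLe h → ∀ A : E3 → (E3 →L[ℝ] E3), IsFrame3 h A →
    ∀ om : E3 → (E3 →L[ℝ] E3), ContDiffOn ℝ ∞ om (Om (Fin 3)) →
      (∀ c : ℝ, 0 < c → ∀ x ∈ Om (Fin 3), om (c • x) = c⁻¹ • om x) →
      (∀ x ∈ Om (Fin 3), ∀ v, cr (om x v) (‖x‖⁻¹ • x) = - fderiv ℝ (fun y : E3 => ‖y‖⁻¹ • y) x v) →
      (∀ x ∈ Om (Fin 3), ∀ u v s, A x (riem h x u v s) =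
        cr (fderiv ℝ (fun y => om y v) x u - fderiv ℝ (fun y => om y u) x v + cr (om x u) (om x v))
          (A x s)) →
      ∃ α : E3 → E3, ContDiffOn ℝ ∞ α (Om (Fin 3)) ∧
        (∀ c : ℝ, 0 < c → ∀ x ∈ Om (Fin 3), α (c • x) = c⁻¹ • α x) ∧
        ∀ x ∈ Om (Fin 3), ‖x‖⁻¹ - xcurl α x ≤ ‖x‖ ^ 2 * sd (h x)

/-- GBI.  For a smooth vector field `α` on `ℝ^3 \ {0}` homogeneous of degree `-1`:
`∫_{slab} xcurl α / |x|² = 0`, and `∫_{slab} |x|⁻³ = 4π`.  Proof of the first: `f = xcurl α / |x|²` is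
homogeneous of degree `-3`, so for every smooth compactly supported `χ : (0,∞) → ℝ` one has
`∫ χ(|x|) f(x) dx = (∫ χ(r) dr/r) ∫_{slab} f` (polar coordinates); and
`∫ χ(|x|) |x|⁻² xcurl α = 0`, because with `φ(x) = χ(|x|)|x|⁻²` (radial, smooth, compact support in
`Om`) `φ xcurl α = ∑ ± ∂_i (φ x_j α_k)` (the other terms cancel since `curl (φ x) = 0`), and the integral
of a partial derivative of a smooth compactly supported function is zero.  Second: polar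
coordinates, `∫_1^e dr/r = 1`, area of `S^2` is `4π`. -/
def GbiStatement : Prop :=
  (∀ α : E3 → E3, ContDiffOn ℝ ∞ α (Om (Fin 3)) →
    (∀ c : ℝ, 0 < c → ∀ x ∈ Om (Fin 3), α (c • x) = c⁻¹ • α x) →
    IntegrableOn (fun x => xcurl α x / ‖x‖ ^ 2) (slab (Fin 3)) ∧
    ∫ x in slab (Fin 3), xcurl α x / ‖x‖ ^ 2 = 0) ∧
  IntegrableOn (fun x : E3 => ‖x‖⁻¹ ^ 3) (slab (Fin 3)) ∧
  ∫ x in slab (Fin 3), ‖(x : E3)‖⁻¹ ^ 3 = 4 * Real.pi

/-- GB2.  `Area ≥ 4π` for a metric on `S^2` with curvature `≤ 1`: combine GBF, GBW, GBC, GBI. -/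
def Gb2Statement : Prop :=
  ∀ (h : E3 → Bil E3), IsCyl h → SecLe h → 4 * Real.pi ≤ ∫ x in slab (Fin 3), sd (h x)

/-- MAI.  The internal main theorem: EXB, FRM, NEX give `F`; CHV, DET, and IN4 or IN2 with RES, GB2. -/
def MaiStatement : Prop :=
  ∀ (G : E5 → Bil E5) (κ : Finset (Fin 5)) (a b : ℝ), Setup G κ a b →
    8 * Real.pi ^ 2 / 3 ≤ ∫ x in slab (Fin 5), sd (G x)

/-! ## Part F: the official definitions -/

open Pool.Agent.SecondKind Pool.Agent.MinVolSphere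

/-- the identification of `Fin 5 → ℝ` with `E5` -/
def vc (x : Fin 5 → ℝ) : E5 := (EuclideanSpace.equiv (Fin 5) ℝ).symm x

/-- PAR.  Good parametrizations.  For `x₀` on the sphere choose `k` with `x₀ k ≠ 0`, `ε = sign (x₀ k)`;
`U = {y : ∑ y_i² < 1}`, `ψ y` has `k`-th coordinate `ε √(1 - ∑ y_i²)` and the other coordinates `y`
(`Fin.insertNth`/`succAbove`), `η x` = the coordinates `≠ k` of `x/|x|`, `O = {x : 0 < ε x k}`. -/
def ParStatement : Prop :=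
  ∀ x₀ : Fin 5 → ℝ, OnSphere x₀ → ∃ (U : Set (Fin 4 → ℝ)) (ψ : (Fin 4 → ℝ) → Fin 5 → ℝ)
    (y₀ : Fin 4 → ℝ) (O : Set (Fin 5 → ℝ)) (η : (Fin 5 → ℝ) → Fin 4 → ℝ),
    IsParam U ψ ∧ y₀ ∈ U ∧ ψ y₀ = x₀ ∧ IsOpen O ∧ x₀ ∈ O ∧ ContDiffOn ℝ ∞ η O ∧
    (∀ x ∈ O, η x ∈ U ∧ ψ (η x) = (Real.sqrt (∑ i, x i ^ 2))⁻¹ • x) ∧
    (∀ y ∈ U, ∀ v : Fin 5 → ℝ, ∑ i, ψ y i * v i = 0 → ∃ u, fderiv ℝ ψ y u = v)

/-- BR1.  A metric on `S^4` gives a cylinder metric: for `x ≠ 0`, `ξ = x/|x|`,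
`G x v w = |x|⁻² (g ξ (v - ⟪ξ,v⟫ξ) (w - ⟪ξ,w⟫ξ) + ⟪ξ,v⟫⟪ξ,w⟫)` (and `0` at `x = 0`).  Smoothness: near
`x₀ ∈ S^4` (and the ray through it) take `ψ`, `η` of PAR (`x/|x| = ψ(η x)`); `v - ⟪ξ,v⟫ξ` is a combination of the
`∂_i ψ` with smooth coefficients, so `G` is a smooth combination of the smooth functions `comp g ψ`. -/
def Br1Statement : Prop :=
  ∀ g : Form 4, IsMetric g → ∃ G : E5 → Bil E5, IsCyl G ∧
    ∀ x v w : Fin 5 → ℝ, Tangent x v → Tangent x w → G (vc x) (vc v) (vc w) = g x v w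

/-- BR2.  Curvature.  For `x` on the unit sphere choose a parametrization `ψ` of a neighbourhood,
`ψ(y) = x`; `comp g ψ` is `mat (pullb G ψ')` (`comp_toForm` in ClMan.lean), `slice` says that `ψ'` is
totally geodesic for `pullb G ψ'` and `G` (`StarOn`), so by `nat`
`fderiv ψ' (riem (pullb G ψ') y a b c) = riem G x (dψ a) (dψ b) (dψ c)`, and `riemV_mat` converts the
classical formula.  So `SecLeOne g` gives `sec` for tangential `v, w` at unit `x`.  General `v, w`: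
write `v = v' + λ x`, the curvature vanishes as soon as one entry is `x` (`cyl`, symmetries), and
`|v'∧w'|² ≤ |v∧w|²` since `x` is a unit vector orthogonal to the tangential ones.  General `x`:
homogeneity (`cyl_riem_hom`). -/
def Br2Statement : Prop :=
  ∀ (g : Form 4) (G : E5 → Bil E5), IsMetric g → IsCyl G →
    (∀ x v w : Fin 5 → ℝ, Tangent x v → Tangent x w → G (vc x) (vc v) (vc w) = g x v w) →
    SecLeOne g → SecLe G

/-- BR3.  Volume: on the unit sphere `density g x = sd (G x)`, and `sd (G x)` is homogeneous of degree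
`-5`, so by polar coordinates (`Measure.toSphere`, `volume.measurePreserving_homeomorphUnitSphereProd`
or `integral` version) `∫_{slab} sd G = ∫_1^e dr/r * ∫_{S^4} density g = vol g`. -/
def Br3Statement : Prop :=
  ∀ (g : Form 4) (G : E5 → Bil E5), IsMetric g → IsCyl G →
    (∀ x v w : Fin 5 → ℝ, Tangent x v → Tangent x w → G (vc x) (vc v) (vc w) = g x v w) →
    ∫ x in slab (Fin 5), sd (G x) = vol g

/-- BR4.  Invariance: `vc (circ a b t x) = Rt a b t (vc x)`; for unit `x` and tangential `v, w` this is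
the hypothesis, radial parts by `IsCyl.radial`, general `x` by homogeneity. -/
def Br4Statement : Prop :=
  ∀ (g : Form 4) (G : E5 → Bil E5) (a b : ℝ), IsMetric g → IsCyl G →
    (∀ x v w : Fin 5 → ℝ, Tangent x v → Tangent x w → G (vc x) (vc v) (vc w) = g x v w) →
    Invariant a b g →
    ∀ t : ℝ, ∀ x ∈ Om (Fin 5), ∀ v w, G (Rt a b t x) (Rt a b t v) (Rt a b t w) = G x v w

/-- RND.  The round metric `g x v w = ∑ v_i w_i`: a metric, invariant, with curvature one (see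
`round_riem` in Helper38_RF/Round.lean and BR2's method, or compute with `slice`/`nat` and the cylinder
`|x|⁻² ⟪·,·⟫`), of volume `8π²/3` (density `1`; area of `S^4` = `5 * vol (unit ball)`,
`vol (B^5) = 8π²/15`). -/
def RndStatement : Prop :=
  let g : Form 4 := fun _ v w => ∑ i, v i * w i
  IsMetric g ∧ AbsSecLeOne g ∧ (∀ a b, Invariant a b g) ∧ vol g = 8 * Real.pi ^ 2 / 3

/-- FIN.  The final theorem: (1) every invariant metric with curvature `≤ 1` has volume at least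
`8π²/3`; (2) the infimum of the volumes of the invariant metrics with `|K| ≤ 1` is exactly
`8π²/3`. -/
def FinStatement : Prop :=
  ∀ a b : ℝ, (a ≠ 0 ∨ b ≠ 0) →
    (∀ g : Form 4, IsMetric g → SecLeOne g → Invariant a b g → 8 * Real.pi ^ 2 / 3 ≤ vol g) ∧
    sInf {V : ℝ | ∃ g : Form 4, IsMetric g ∧ AbsSecLeOne g ∧ Invariant a b g ∧ vol g = V} =
      8 * Real.pi ^ 2 / 3

end Pool.Agent.MVS
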